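import Pool.Agent.P.MP_a69370_nt.Fin

namespace Pool.Agent.Results.MP_a69370_nt.PowerSaving

theorem result : ∃ C : ℝ, ∀ X : ℕ,
    (((Finset.range X).filter fun k => ¬ 3 ∣ catalan (2 ^ k - 1)).card : ℝ) ≤
      C * (X : ℝ) ^ (Real.log 12 / Real.log (243 / 4)) :=
  ⟨46 * 12 ^ 5, Pool.Agent.P.MP_a69370_nt.main⟩

end Pool.Agent.Results.MP_a69370_nt.PowerSaving
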